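import Mathlib

/-!
Section 6 (revealing argument), part A: averages over the even permutations fixing a finite set.
-/

open Equiv Finset

namespace RCG

variable {Ω : Type*} [Fintype Ω] [DecidableEq Ω]

/-- Even permutations fixing `D` pointwise. -/
def stab (D : Finset Ω) : Finset (Perm Ω) :=
  univ.filter fun h => Perm.sign h = 1 ∧ ∀ x ∈ D, h x = x

theorem mem_stab {D : Finset Ω} {h : Perm Ω} :
    h ∈ stab D ↔ Perm.sign h = 1 ∧ ∀ x ∈ D, h x = x := by
  simp [stab]

theorem one_mem_stab (D : Finset Ω) : (1 : Perm Ω) ∈ stab D := by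
  simp [mem_stab]

theorem mul_mem_stab {D : Finset Ω} {h h' : Perm Ω} (h1 : h ∈ stab D) (h2 : h' ∈ stab D) :
    h * h' ∈ stab D := by
  rw [mem_stab] at *
  refine ⟨by rw [Perm.sign_mul, h1.1, h2.1, one_mul], fun x hx => ?_⟩
  rw [Perm.mul_apply, h2.2 x hx, h1.2 x hx]

theorem inv_mem_stab {D : Finset Ω} {h : Perm Ω} (h1 : h ∈ stab D) : h⁻¹ ∈ stab D := by
  rw [mem_stab] at *
  refine ⟨by rw [Perm.sign_inv, h1.1], fun x hx => ?_⟩
  rw [Perm.inv_eq_iff_eq, h1.2 x hx]

theorem stab_anti {D D' : Finset Ω} (h : D ⊆ D') : stab D' ⊆ stab D := by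
  intro x hx
  rw [mem_stab] at *
  exact ⟨hx.1, fun y hy => hx.2 y (h hy)⟩

/-- Average over `stab D`. -/
noncomputable def av (D : Finset Ω) (F : Perm Ω → ℝ) : ℝ :=
  (∑ h ∈ stab D, F h) / ((stab D).card : ℝ)

theorem card_stab_pos (D : Finset Ω) : (0 : ℝ) < ((stab D).card : ℝ) := by
  exact_mod_cast card_pos.2 ⟨1, one_mem_stab D⟩

theorem av_mono {D : Finset Ω} {F F' : Perm Ω → ℝ} (h : ∀ g ∈ stab D, F g ≤ F' g) :
    av D F ≤ av D F' :=
  div_le_div_of_nonneg_right (sum_le_sum h) (card_stab_pos D).le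

theorem av_congr {D : Finset Ω} {F F' : Perm Ω → ℝ} (h : ∀ g ∈ stab D, F g = F' g) :
    av D F = av D F' := by
  unfold av
  rw [sum_congr rfl h]

theorem av_const (D : Finset Ω) (c : ℝ) : av D (fun _ => c) = c := by
  unfold av
  rw [sum_const, nsmul_eq_mul]
  field_simp [(card_stab_pos D).ne']

theorem av_add (D : Finset Ω) (F F' : Perm Ω → ℝ) :
    av D (fun h => F h + F' h) = av D F + av D F' := by
  unfold av
  rw [sum_add_distrib, add_div]

theorem av_mul_left (D : Finset Ω) (c : ℝ) (F : Perm Ω → ℝ) :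
    av D (fun h => c * F h) = c * av D F := by
  unfold av
  rw [← mul_sum, mul_div_assoc]

theorem av_nonneg {D : Finset Ω} {F : Perm Ω → ℝ} (h : ∀ g ∈ stab D, 0 ≤ F g) : 0 ≤ av D F :=
  div_nonneg (sum_nonneg h) (card_stab_pos D).le

theorem av_sum {ι : Type*} (s : Finset ι) (D : Finset Ω) (F : ι → Perm Ω → ℝ) :
    av D (fun h => ∑ i ∈ s, F i h) = ∑ i ∈ s, av D (F i) := by
  unfold av
  rw [sum_comm, sum_div]

/-- Tower property. -/
theorem av_tower {D D' : Finset Ω} (h : D ⊆ D') (F : Perm Ω → ℝ) :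
    av D F = av D (fun g => av D' (fun g' => F (g * g'))) := by
  have h1 : ∀ g' ∈ stab D', ∑ g ∈ stab D, F (g * g') = ∑ g ∈ stab D, F g := by
    intro g' hg'
    have h2 := stab_anti h hg'
    refine sum_nbij' (fun g => g * g') (fun g => g * g'⁻¹) ?_ ?_ ?_ ?_ ?_
    · intro g hg
      exact mul_mem_stab hg h2
    · intro g hg
      exact mul_mem_stab hg (inv_mem_stab h2)
    · intro g _
      simp
    · intro g _
      simp
    · intro g _
      rfl
  unfold av
  rw [← sum_div, sum_comm, sum_congr rfl h1, sum_const, nsmul_eq_mul]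
  have h3 := (card_stab_pos D').ne'
  have h4 := (card_stab_pos D).ne'
  field_simp

/-- Tower property, with a left factor. -/
theorem av_tower' {D D' : Finset Ω} (h : D ⊆ D') (σ : Perm Ω) (F : Perm Ω → ℝ) :
    av D (fun g => F (σ * g)) = av D (fun g => av D' (fun g' => F (σ * g * g'))) := by
  rw [av_tower h]
  simp only [mul_assoc]

theorem exists_stab {D : Finset Ω} (hD : D.card + 3 ≤ Fintype.card Ω) {x x' : Ω} (hx : x ∉ D)
    (hx' : x' ∉ D) : ∃ g ∈ stab D, g x = x' := by
  by_cases hxx : x = x'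
  · exact ⟨1, one_mem_stab D, by simp [hxx]⟩
  have h1 : (insert x (insert x' D)).card < (univ : Finset Ω).card := by
    have h2 := card_insert_le x (insert x' D)
    have h3 := card_insert_le x' D
    rw [card_univ]
    omega
  obtain ⟨z, -, hz⟩ := exists_mem_notMem_of_card_lt_card h1
  rw [mem_insert, mem_insert, not_or, not_or] at hz
  refine ⟨swap z x' * swap x z, ?_, ?_⟩
  · rw [mem_stab, Perm.sign_mul, Perm.sign_swap hz.2.1, Perm.sign_swap (Ne.symm hz.1)]
    refine ⟨by decide, fun y hy => ?_⟩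
    have h4 : y ≠ x := fun h => hx (h ▸ hy)
    have h5 : y ≠ x' := fun h => hx' (h ▸ hy)
    have h6 : y ≠ z := fun h => hz.2.2 (h ▸ hy)
    rw [Perm.mul_apply, swap_apply_of_ne_of_ne h4 h6, swap_apply_of_ne_of_ne h6 h5]
  · rw [Perm.mul_apply, swap_apply_left, swap_apply_left]

/-- One-point lemma: the image of a point outside `D` is uniform on the complement of `D`. -/
theorem av_point {D : Finset Ω} (hD : D.card + 3 ≤ Fintype.card Ω) (σ : Perm Ω) {v : Ω}
    (hv : v ∉ D) (S : Finset Ω) :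
    av D (fun h => if σ (h v) ∈ S then (1 : ℝ) else 0) ≤
      (S.card : ℝ) / ((Fintype.card Ω : ℝ) - (D.card : ℝ)) := by
  classical
  set c : Ω → ℕ := fun x => ((stab D).filter fun h => h v = x).card with hc
  have h1 : ∀ x x' : Ω, x ∉ D → x' ∉ D → c x = c x' := by
    intro x x' hx hx'
    obtain ⟨g, hg, hgx⟩ := exists_stab hD hx hx'
    refine card_nbij' (fun h => g * h) (fun h => g⁻¹ * h) ?_ ?_ ?_ ?_
    · intro h hh
      rw [mem_coe, mem_filter] at hh ⊢
      exact ⟨mul_mem_stab hg hh.1, by rw [Perm.mul_apply, hh.2, hgx]⟩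
    · intro h hh
      rw [mem_coe, mem_filter] at hh ⊢
      exact ⟨mul_mem_stab (inv_mem_stab hg) hh.1, by
        rw [Perm.mul_apply, hh.2, Perm.inv_eq_iff_eq, hgx]⟩
    · intro h _
      simp
    · intro h _
      simp
  have h2 : ∀ x ∈ D, c x = 0 := by
    intro x hx
    rw [hc]
    refine card_eq_zero.2 (filter_eq_empty_iff.2 fun h hh hhx => hv ?_)
    rw [mem_stab] at hh
    have h3 : h v = h x := by rw [hhx, hh.2 x hx]
    rw [h.injective h3]
    exact hx
  have h4 : (stab D).card = ∑ x, c x :=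
    card_eq_sum_card_fiberwise (f := fun h : Perm Ω => h v) (fun _ _ => mem_coe.2 (mem_univ _))
  have h5 : ∀ x ∈ Dᶜ, c x = c v := fun x hx => h1 x v (mem_compl.1 hx) hv
  have h6 : (stab D).card = (Fintype.card Ω - D.card) * c v := by
    rw [h4, ← sum_add_sum_compl D, sum_eq_zero h2, zero_add, sum_congr rfl h5, sum_const,
      card_compl, smul_eq_mul]
  have h7 : ∀ x, c x ≤ c v := by
    intro x
    by_cases hx : x ∈ D
    · rw [h2 x hx]
      exact Nat.zero_le _
    · exact (h1 x v hx hv).le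
  have h8 : (∑ h ∈ stab D, if σ (h v) ∈ S then (1 : ℝ) else 0) ≤ S.card * (c v : ℝ) := by
    rw [← sum_filter, sum_const, nsmul_eq_mul, mul_one]
    have h9 : ((stab D).filter fun h => σ (h v) ∈ S).card =
        ∑ x ∈ S, c (σ⁻¹ x) := by
      rw [card_eq_sum_card_fiberwise (f := fun h : Perm Ω => σ (h v)) (t := S)]
      · refine sum_congr rfl fun x hx => ?_
        rw [hc]
        congr 1
        ext h
        simp only [mem_filter]
        constructor
        · rintro ⟨⟨h10, -⟩, h11⟩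
          exact ⟨h10, by rw [eq_comm, Perm.inv_eq_iff_eq]; exact h11.symm⟩
        · rintro ⟨h10, h11⟩
          have h12 : σ (h v) = x := by rw [h11]; simp
          exact ⟨⟨h10, by rw [h12]; exact hx⟩, h12⟩
      · intro h hh
        exact (mem_filter.1 (mem_coe.1 hh)).2
    have h10 : ((stab D).filter fun h => σ (h v) ∈ S).card ≤ S.card * c v := by
      rw [h9, ← smul_eq_mul, ← sum_const]
      exact sum_le_sum fun x _ => h7 _
    exact_mod_cast h10
  have h9 : ((stab D).card : ℝ) = ((Fintype.card Ω : ℝ) - (D.card : ℝ)) * (c v : ℝ) := by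
    rw [h6, Nat.cast_mul, Nat.cast_sub (by omega)]
  have h10 : (0 : ℝ) < (Fintype.card Ω : ℝ) - (D.card : ℝ) := by
    have : ((D.card + 3 : ℕ) : ℝ) ≤ (Fintype.card Ω : ℝ) := by exact_mod_cast hD
    push_cast at this
    linarith
  have h11 : (0 : ℝ) < (c v : ℝ) := by
    have h12 := card_stab_pos D
    rw [h9] at h12
    exact (mul_pos_iff_of_pos_left h10).1 h12
  unfold av
  rw [div_le_div_iff₀ (card_stab_pos D) h10, h9]
  calc _ ≤ (S.card * (c v : ℝ)) * ((Fintype.card Ω : ℝ) - (D.card : ℝ)) :=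
        mul_le_mul_of_nonneg_right h8 h10.le
    _ = _ := by ring

end RCG
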