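import Pool.Agent.W_6acff7_h22.RevA

/-!
Section 6 (revealing argument), part B: the revealing argument.
-/

open Equiv Finset

namespace RCG

variable {Ω : Type*} [Fintype Ω] [DecidableEq Ω]

open Classical in
/-- Indicator of a proposition. -/
noncomputable def ind (p : Prop) : ℝ := if p then 1 else 0

theorem ind_nonneg (p : Prop) : 0 ≤ ind p := by
  unfold ind
  split_ifs
  · exact zero_le_one
  · exact le_refl 0

theorem ind_le_one (p : Prop) : ind p ≤ 1 := by
  unfold ind
  split_ifs
  · exact le_refl 1
  · exact zero_le_one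

theorem ind_true {p : Prop} (h : p) : ind p = 1 := if_pos h

theorem ind_false {p : Prop} (h : ¬ p) : ind p = 0 := if_neg h

/-- Follow a point: apply `y`, then the head of the list, and so on. -/
def run (y : Perm Ω) : Ω → List (Perm Ω) → Ω
  | v, [] => v
  | v, a :: l => run y (a (y v)) l

/-- Number of fixed points. -/
def fixc (g : Perm Ω) : ℕ := (univ.filter fun x => g x = x).card

open Classical in
/-- Number of indices at which the quotient of the two permutations has at most `φ n` fixed points. -/
noncomputable def good (φ : ℝ) : List (Perm Ω) → List (Perm Ω) → ℕ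
  | a :: l, a' :: l' =>
      (if (fixc (a⁻¹ * a') : ℝ) ≤ φ * Fintype.card Ω then 1 else 0) + good φ l l'
  | _, _ => 0

theorem av_point' {D : Finset Ω} (hD : D.card + 3 ≤ Fintype.card Ω) (σ : Perm Ω) {v : Ω}
    (hv : v ∉ D) (S : Finset Ω) :
    av D (fun h => ind (σ (h v) ∈ S)) ≤
      (S.card : ℝ) / ((Fintype.card Ω : ℝ) - (D.card : ℝ)) := by
  refine le_trans (le_of_eq (av_congr fun h _ => ?_)) (av_point hD σ hv S)
  by_cases h1 : σ (h v) ∈ S
  · rw [ind_true h1, if_pos h1]
  · rw [ind_false h1, if_neg h1]

/-- One-point lemma with the bound `2 |S| / n`. -/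
theorem av_point2 {D : Finset Ω} (hD : 2 * D.card + 4 ≤ Fintype.card Ω) (σ : Perm Ω) {v : Ω}
    (hv : v ∉ D) (S : Finset Ω) :
    av D (fun h => ind (σ (h v) ∈ S)) ≤ 2 * (S.card : ℝ) / (Fintype.card Ω : ℝ) := by
  refine (av_point' (by omega) σ hv S).trans ?_
  have h1 : ((2 * D.card + 4 : ℕ) : ℝ) ≤ (Fintype.card Ω : ℝ) := by exact_mod_cast hD
  push_cast at h1
  have h2 : (0 : ℝ) ≤ (D.card : ℝ) := Nat.cast_nonneg _
  have h3 : (0 : ℝ) ≤ (S.card : ℝ) := Nat.cast_nonneg _
  rw [div_le_div_iff₀ (by linarith) (by linarith)]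
  nlinarith

section
variable {G : Perm Ω → ℝ} {m : ℕ} {C η φ : ℝ}

theorem C_nonneg (hG0 : ∀ y, 0 ≤ G y)
    (hG : ∀ (D : Finset Ω) (σ : Perm Ω), D.card ≤ m → av D (fun h => G (σ * h)) ≤ C) : 0 ≤ C :=
  (av_nonneg fun g _ => hG0 _).trans (hG ∅ 1 (by simp))

theorem av_G_ind_le (hG0 : ∀ y, 0 ≤ G y)
    (hG : ∀ (D : Finset Ω) (σ : Perm Ω), D.card ≤ m → av D (fun h => G (σ * h)) ≤ C)
    {D : Finset Ω} (hD : D.card ≤ m) (σ : Perm Ω) (p : Perm Ω → Prop) :
    av D (fun h => G (σ * h) * ind (p h)) ≤ C := by
  refine le_trans (av_mono fun g _ => ?_) (hG D σ hD)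
  exact mul_le_of_le_one_right (hG0 _) (ind_le_one _)

/-- Diverged trajectories. -/
theorem div_bound (hG0 : ∀ y, 0 ≤ G y)
    (hG : ∀ (D : Finset Ω) (σ : Perm Ω), D.card ≤ m → av D (fun h => G (σ * h)) ≤ C)
    (hm : 2 * m + 4 ≤ Fintype.card Ω) (hη : 4 * (m : ℝ) + 2 ≤ η * Fintype.card Ω) :
    ∀ (k : ℕ) (l l' : List (Perm Ω)), l.length = k → l'.length = k → ∀ (D : Finset Ω)
      (σ : Perm Ω) (v v' : Ω), D.card + 2 * k ≤ m → v ≠ v' → v ∉ D → v' ∉ D →
      av D (fun h => G (σ * h) * ind (run (σ * h) v l = run (σ * h) v' l')) ≤ k * η * C := by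
  have hC := C_nonneg hG0 hG
  have hn : (0 : ℝ) < Fintype.card Ω := by
    have : 0 < Fintype.card Ω := by omega
    exact_mod_cast this
  have hη0 : 0 ≤ η := by
    by_contra h
    push Not at h
    have h1 : η * Fintype.card Ω < 0 := mul_neg_of_neg_of_pos h hn
    have h2 : (0 : ℝ) ≤ (m : ℝ) := Nat.cast_nonneg _
    linarith
  intro k
  induction k with
  | zero =>
    intro l l' hl hl' D σ v v' _ hvv _ _
    rw [List.length_eq_zero_iff] at hl hl'
    subst hl
    subst hl'
    have h1 : av D (fun h => G (σ * h) * ind (run (σ * h) v [] = run (σ * h) v' [])) =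
        av D (fun _ => 0) := by
      refine av_congr fun g _ => ?_
      rw [ind_false (show ¬ (run (σ * g) v [] = run (σ * g) v' []) from hvv), mul_zero]
    rw [h1, av_const]
    simp
  | succ k ih =>
    intro l l' hl hl' D σ v v' hD hvv hv hv'
    obtain ⟨a, l1, rfl⟩ := List.exists_cons_of_length_eq_add_one hl
    obtain ⟨a', l1', rfl⟩ := List.exists_cons_of_length_eq_add_one hl'
    rw [List.length_cons] at hl hl'
    have hl1 : l1.length = k := by omega
    have hl1' : l1'.length = k := by omega
    have hv2 : v ∉ insert v' D := by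
      rw [mem_insert, not_or]
      exact ⟨hvv, hv⟩
    have hc2 : (insert v (insert v' D)).card = D.card + 2 := by
      rw [card_insert_of_notMem hv2, card_insert_of_notMem hv']
    have hDs : D ⊆ insert v (insert v' D) := (subset_insert _ _).trans (subset_insert _ _)
    have hin : ∀ g ∈ stab D, av (insert v (insert v' D)) (fun g' => G (σ * g * g') *
        ind (run (σ * g * g') v (a :: l1) = run (σ * g * g') v' (a' :: l1'))) ≤
        k * η * C + (ind ((a * σ) (g v) ∈ insert v (insert v' D)) +
          ind ((a' * σ) (g v') ∈ insert v (insert v' D)) +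
          ind ((a * σ) (g v) = (a' * σ) (g v'))) * C := by
      intro g _
      have h1 : av (insert v (insert v' D)) (fun g' => G (σ * g * g') *
          ind (run (σ * g * g') v (a :: l1) = run (σ * g * g') v' (a' :: l1'))) =
          av (insert v (insert v' D)) (fun g' => G (σ * g * g') *
          ind (run (σ * g * g') ((a * σ) (g v)) l1 = run (σ * g * g') ((a' * σ) (g v')) l1')) := by
        refine av_congr fun g' hg' => ?_
        rw [mem_stab] at hg'
        have h2 : g' v = v := hg'.2 v (mem_insert_self _ _)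
        have h3 : g' v' = v' := hg'.2 v' (mem_insert_of_mem (mem_insert_self _ _))
        have h4 : run (σ * g * g') v (a :: l1) = run (σ * g * g') ((a * σ) (g v)) l1 := by
          show run (σ * g * g') (a ((σ * g * g') v)) l1 = _
          rw [Perm.mul_apply, h2]
          rfl
        have h5 : run (σ * g * g') v' (a' :: l1') = run (σ * g * g') ((a' * σ) (g v')) l1' := by
          show run (σ * g * g') (a' ((σ * g * g') v')) l1' = _
          rw [Perm.mul_apply, h3]
          rfl
        rw [h4, h5]
      rw [h1]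
      have hk : 0 ≤ (k : ℝ) * η * C := by positivity
      have hle : av (insert v (insert v' D)) (fun g' => G (σ * g * g') *
          ind (run (σ * g * g') ((a * σ) (g v)) l1 = run (σ * g * g') ((a' * σ) (g v')) l1')) ≤ C :=
        av_G_ind_le hG0 hG (by omega) (σ * g) _
      have i1 := ind_nonneg ((a * σ) (g v) ∈ insert v (insert v' D))
      have i2 := ind_nonneg ((a' * σ) (g v') ∈ insert v (insert v' D))
      have i3 := ind_nonneg ((a * σ) (g v) = (a' * σ) (g v'))
      by_cases b1 : (a * σ) (g v) ∈ insert v (insert v' D)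
      · rw [ind_true b1]
        nlinarith
      by_cases b2 : (a' * σ) (g v') ∈ insert v (insert v' D)
      · rw [ind_true b2]
        nlinarith
      by_cases b3 : (a * σ) (g v) = (a' * σ) (g v')
      · rw [ind_true b3]
        nlinarith
      have h6 := ih l1 l1' hl1 hl1' (insert v (insert v' D)) (σ * g) _ _ (by omega) b3 b1 b2
      refine h6.trans ?_
      nlinarith
    have hp1 : av D (fun g => ind ((a * σ) (g v) ∈ insert v (insert v' D))) ≤
        2 * ((D.card + 2 : ℕ) : ℝ) / (Fintype.card Ω : ℝ) := by
      have := av_point2 (D := D) (by omega) (a * σ) hv (insert v (insert v' D))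
      rwa [hc2] at this
    have hp2 : av D (fun g => ind ((a' * σ) (g v') ∈ insert v (insert v' D))) ≤
        2 * ((D.card + 2 : ℕ) : ℝ) / (Fintype.card Ω : ℝ) := by
      have := av_point2 (D := D) (by omega) (a' * σ) hv' (insert v (insert v' D))
      rwa [hc2] at this
    have hp3 : av D (fun g => ind ((a * σ) (g v) = (a' * σ) (g v'))) ≤
        2 / (Fintype.card Ω : ℝ) := by
      rw [av_tower (subset_insert v' D)]
      refine le_trans (av_mono (F' := fun _ => 2 / (Fintype.card Ω : ℝ)) fun g _ => ?_)
        (le_of_eq (av_const _ _))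
      have h1 : av (insert v' D) (fun g' => ind ((a * σ) ((g * g') v) = (a' * σ) ((g * g') v'))) =
          av (insert v' D) (fun g' => ind ((a * σ * g) (g' v) ∈ ({(a' * σ) (g v')} : Finset Ω))) := by
        refine av_congr fun g' hg' => ?_
        rw [mem_stab] at hg'
        have h3 : g' v' = v' := hg'.2 v' (mem_insert_self _ _)
        rw [mem_singleton, Perm.mul_apply g g' v', h3]
        rfl
      rw [h1]
      have h2 := av_point2 (D := insert v' D) (by rw [card_insert_of_notMem hv']; omega)
        (a * σ * g) hv2 {(a' * σ) (g v')}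
      rw [card_singleton, Nat.cast_one, mul_one] at h2
      exact h2
    have h7 : av D (fun h => G (σ * h) * ind (run (σ * h) v (a :: l1) = run (σ * h) v' (a' :: l1')))
        = av D (fun g => av (insert v (insert v' D)) (fun g' => G (σ * g * g') *
          ind (run (σ * g * g') v (a :: l1) = run (σ * g * g') v' (a' :: l1')))) :=
      av_tower' hDs σ (fun y => G y * ind (run y v (a :: l1) = run y v' (a' :: l1')))
    have h8 : av D (fun g => k * η * C + (ind ((a * σ) (g v) ∈ insert v (insert v' D)) +
          ind ((a' * σ) (g v') ∈ insert v (insert v' D)) +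
          ind ((a * σ) (g v) = (a' * σ) (g v'))) * C) =
        k * η * C + (av D (fun g => ind ((a * σ) (g v) ∈ insert v (insert v' D))) +
          av D (fun g => ind ((a' * σ) (g v') ∈ insert v (insert v' D))) +
          av D (fun g => ind ((a * σ) (g v) = (a' * σ) (g v')))) * C := by
      rw [av_add, av_const]
      congr 1
      rw [← av_add, ← av_add, mul_comm, ← av_mul_left]
      refine av_congr fun g _ => ?_
      ring
    rw [h7]
    refine (av_mono hin).trans ?_
    rw [h8]
    have h9 : av D (fun g => ind ((a * σ) (g v) ∈ insert v (insert v' D))) +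
          av D (fun g => ind ((a' * σ) (g v') ∈ insert v (insert v' D))) +
          av D (fun g => ind ((a * σ) (g v) = (a' * σ) (g v'))) ≤ η := by
      have h10 : ((D.card + 2 * (k + 1) : ℕ) : ℝ) ≤ (m : ℝ) := by exact_mod_cast hD
      push_cast at h10
      have e2 : ((D.card + 2 : ℕ) : ℝ) = (D.card : ℝ) + 2 := by push_cast; ring
      rw [e2] at hp1 hp2
      have h11 : (0 : ℝ) ≤ (k : ℝ) := Nat.cast_nonneg _
      have h12 : 2 * ((D.card : ℝ) + 2) / (Fintype.card Ω : ℝ) +
          2 * ((D.card : ℝ) + 2) / (Fintype.card Ω : ℝ) + 2 / (Fintype.card Ω : ℝ) ≤ η := by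
        rw [← add_div, ← add_div, div_le_iff₀ hn]
        linarith
      linarith
    have h10 := mul_le_mul_of_nonneg_right h9 hC
    rw [Nat.cast_add, Nat.cast_one]
    linarith

/-- Merged trajectories. -/
theorem mrg_bound (hG0 : ∀ y, 0 ≤ G y)
    (hG : ∀ (D : Finset Ω) (σ : Perm Ω), D.card ≤ m → av D (fun h => G (σ * h)) ≤ C)
    (hm : 2 * m + 4 ≤ Fintype.card Ω) (hη : 4 * (m : ℝ) + 2 ≤ η * Fintype.card Ω)
    (hφ : 0 ≤ φ) :
    ∀ (k : ℕ) (l l' : List (Perm Ω)), l.length = k → l'.length = k → ∀ (D : Finset Ω)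
      (σ : Perm Ω) (v : Ω), D.card + 2 * k ≤ m → v ∉ D →
      av D (fun h => G (σ * h) * ind (run (σ * h) v l = run (σ * h) v l')) ≤
        ((2 * φ) ^ good φ l l' + k * η) * C := by
  have hC := C_nonneg hG0 hG
  have hn : (0 : ℝ) < Fintype.card Ω := by
    have : 0 < Fintype.card Ω := by omega
    exact_mod_cast this
  have hη0 : 0 ≤ η := by
    by_contra h
    push Not at h
    have h1 : η * Fintype.card Ω < 0 := mul_neg_of_neg_of_pos h hn
    have h2 : (0 : ℝ) ≤ (m : ℝ) := Nat.cast_nonneg _
    linarith
  intro k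
  induction k with
  | zero =>
    intro l l' hl hl' D σ v hD _
    rw [List.length_eq_zero_iff] at hl hl'
    subst hl
    subst hl'
    refine (av_G_ind_le hG0 hG (by omega) σ _).trans (le_of_eq ?_)
    simp [good]
  | succ k ih =>
    intro l l' hl hl' D σ v hD hv
    obtain ⟨a, l1, rfl⟩ := List.exists_cons_of_length_eq_add_one hl
    obtain ⟨a', l1', rfl⟩ := List.exists_cons_of_length_eq_add_one hl'
    rw [List.length_cons] at hl hl'
    have hl1 : l1.length = k := by omega
    have hl1' : l1'.length = k := by omega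
    have hc2 : (insert v D).card = D.card + 1 := card_insert_of_notMem hv
    have hq0 : 0 ≤ (2 * φ) ^ good φ l1 l1' := by positivity
    have hin : ∀ g ∈ stab D, av (insert v D) (fun g' => G (σ * g * g') *
        ind (run (σ * g * g') v (a :: l1) = run (σ * g * g') v (a' :: l1'))) ≤
        k * η * C + (ind ((a * σ) (g v) ∈ insert v D) +
          ind ((a' * σ) (g v) ∈ insert v D) +
          (2 * φ) ^ good φ l1 l1' * ind (σ (g v) ∈ univ.filter fun x => (a⁻¹ * a') x = x)) * C := by
      intro g _
      have h1 : av (insert v D) (fun g' => G (σ * g * g') *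
          ind (run (σ * g * g') v (a :: l1) = run (σ * g * g') v (a' :: l1'))) =
          av (insert v D) (fun g' => G (σ * g * g') *
          ind (run (σ * g * g') ((a * σ) (g v)) l1 = run (σ * g * g') ((a' * σ) (g v)) l1')) := by
        refine av_congr fun g' hg' => ?_
        rw [mem_stab] at hg'
        have h2 : g' v = v := hg'.2 v (mem_insert_self _ _)
        have h4 : run (σ * g * g') v (a :: l1) = run (σ * g * g') ((a * σ) (g v)) l1 := by
          show run (σ * g * g') (a ((σ * g * g') v)) l1 = _
          rw [Perm.mul_apply, h2]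
          rfl
        have h5 : run (σ * g * g') v (a' :: l1') = run (σ * g * g') ((a' * σ) (g v)) l1' := by
          show run (σ * g * g') (a' ((σ * g * g') v)) l1' = _
          rw [Perm.mul_apply, h2]
          rfl
        rw [h4, h5]
      rw [h1]
      have hk : 0 ≤ (k : ℝ) * η * C := by positivity
      have hle : av (insert v D) (fun g' => G (σ * g * g') *
          ind (run (σ * g * g') ((a * σ) (g v)) l1 = run (σ * g * g') ((a' * σ) (g v)) l1')) ≤ C :=
        av_G_ind_le hG0 hG (by omega) (σ * g) _
      have i1 := ind_nonneg ((a * σ) (g v) ∈ insert v D)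
      have i2 := ind_nonneg ((a' * σ) (g v) ∈ insert v D)
      have i3 := ind_nonneg (σ (g v) ∈ univ.filter fun x => (a⁻¹ * a') x = x)
      have i4 := mul_nonneg hq0 i3
      have i5 := mul_nonneg i4 hC
      have i6 := mul_nonneg i1 hC
      have i7 := mul_nonneg i2 hC
      by_cases b1 : (a * σ) (g v) ∈ insert v D
      · rw [ind_true b1]
        nlinarith
      by_cases b2 : (a' * σ) (g v) ∈ insert v D
      · rw [ind_true b2]
        nlinarith
      by_cases b3 : (a * σ) (g v) = (a' * σ) (g v)
      · have b4 : σ (g v) ∈ univ.filter fun x => (a⁻¹ * a') x = x := by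
          rw [mem_filter, Perm.mul_apply, Perm.inv_eq_iff_eq]
          exact ⟨mem_univ _, b3.symm⟩
        rw [ind_true b4, mul_one]
        have h6 := ih l1 l1' hl1 hl1' (insert v D) (σ * g) ((a * σ) (g v)) (by omega) b1
        rw [← b3]
        refine h6.trans ?_
        nlinarith
      · have h6 := div_bound hG0 hG hm hη k l1 l1' hl1 hl1' (insert v D) (σ * g) _ _ (by omega)
          b3 b1 b2
        refine h6.trans ?_
        nlinarith
    have hp1 : av D (fun g => ind ((a * σ) (g v) ∈ insert v D)) ≤
        2 * ((D.card + 1 : ℕ) : ℝ) / (Fintype.card Ω : ℝ) := by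
      have := av_point2 (D := D) (by omega) (a * σ) hv (insert v D)
      rwa [hc2] at this
    have hp2 : av D (fun g => ind ((a' * σ) (g v) ∈ insert v D)) ≤
        2 * ((D.card + 1 : ℕ) : ℝ) / (Fintype.card Ω : ℝ) := by
      have := av_point2 (D := D) (by omega) (a' * σ) hv (insert v D)
      rwa [hc2] at this
    have hp3 : (2 * φ) ^ good φ l1 l1' *
        av D (fun g => ind (σ (g v) ∈ univ.filter fun x => (a⁻¹ * a') x = x)) ≤
        (2 * φ) ^ good φ (a :: l1) (a' :: l1') := by
      show _ ≤ (2 * φ) ^ ((if (fixc (a⁻¹ * a') : ℝ) ≤ φ * Fintype.card Ω then 1 else 0) +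
        good φ l1 l1')
      by_cases hgd : (fixc (a⁻¹ * a') : ℝ) ≤ φ * Fintype.card Ω
      · rw [if_pos hgd, pow_add, pow_one, mul_comm]
        refine mul_le_mul_of_nonneg_right ?_ hq0
        refine (av_point2 (D := D) (by omega) σ hv _).trans ?_
        rw [div_le_iff₀ hn]
        have : ((univ.filter fun x => (a⁻¹ * a') x = x).card : ℝ) ≤ φ * Fintype.card Ω := hgd
        linarith
      · rw [if_neg hgd, zero_add]
        refine mul_le_of_le_one_right hq0 ?_
        refine (av_mono (F' := fun _ => 1) fun g _ => ind_le_one _).trans (le_of_eq (av_const _ _))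
    have h7 : av D (fun h => G (σ * h) * ind (run (σ * h) v (a :: l1) = run (σ * h) v (a' :: l1')))
        = av D (fun g => av (insert v D) (fun g' => G (σ * g * g') *
          ind (run (σ * g * g') v (a :: l1) = run (σ * g * g') v (a' :: l1')))) :=
      av_tower' (subset_insert v D) σ
        (fun y => G y * ind (run y v (a :: l1) = run y v (a' :: l1')))
    have h8 : av D (fun g => k * η * C + (ind ((a * σ) (g v) ∈ insert v D) +
          ind ((a' * σ) (g v) ∈ insert v D) +
          (2 * φ) ^ good φ l1 l1' * ind (σ (g v) ∈ univ.filter fun x => (a⁻¹ * a') x = x)) * C) =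
        k * η * C + (av D (fun g => ind ((a * σ) (g v) ∈ insert v D)) +
          av D (fun g => ind ((a' * σ) (g v) ∈ insert v D)) +
          (2 * φ) ^ good φ l1 l1' *
            av D (fun g => ind (σ (g v) ∈ univ.filter fun x => (a⁻¹ * a') x = x))) * C := by
      rw [av_add, av_const]
      congr 1
      rw [← av_mul_left, ← av_add, ← av_add, mul_comm _ C, ← av_mul_left]
      refine av_congr fun g _ => ?_
      ring
    rw [h7]
    refine (av_mono hin).trans ?_
    rw [h8]
    have h9 : av D (fun g => ind ((a * σ) (g v) ∈ insert v D)) +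
          av D (fun g => ind ((a' * σ) (g v) ∈ insert v D)) ≤ η := by
      have h10 : ((D.card + 2 * (k + 1) : ℕ) : ℝ) ≤ (m : ℝ) := by exact_mod_cast hD
      push_cast at h10
      have e2 : ((D.card + 1 : ℕ) : ℝ) = (D.card : ℝ) + 1 := by push_cast; ring
      rw [e2] at hp1 hp2
      have h11 : (0 : ℝ) ≤ (k : ℝ) := Nat.cast_nonneg _
      have h12 : 2 * ((D.card : ℝ) + 1) / (Fintype.card Ω : ℝ) +
          2 * ((D.card : ℝ) + 1) / (Fintype.card Ω : ℝ) ≤ η := by
        rw [← add_div, div_le_iff₀ hn]
        linarith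
      linarith
    have h10 := mul_le_mul_of_nonneg_right h9 hC
    have h11 := mul_le_mul_of_nonneg_right hp3 hC
    rw [Nat.cast_add, Nat.cast_one]
    linarith

end

end RCG
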