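import Pool.Agent.W_6acff7_h22.RevB

/-!
Section 6 (revealing argument), part C: moments, Markov, families of words.
-/

open Equiv Finset

namespace RCG

variable {Ω : Type*} [Fintype Ω] [DecidableEq Ω]

/-- The proportion of points with `w t = w' t`, where `w` first applies `a`, then `y`, and so on. -/
noncomputable def kap (y a a' : Perm Ω) (l l' : List (Perm Ω)) : ℝ :=
  (∑ t : Ω, ind (run y (a t) l = run y (a' t) l')) / (Fintype.card Ω : ℝ)

theorem kap_nonneg (y a a' : Perm Ω) (l l' : List (Perm Ω)) : 0 ≤ kap y a a' l l' :=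
  div_nonneg (sum_nonneg fun _ _ => ind_nonneg _) (Nat.cast_nonneg _)

theorem sum_ind (S : Finset Ω) : ∑ t : Ω, ind (t ∈ S) = (S.card : ℝ) := by
  classical
  have h : ∀ t : Ω, ind (t ∈ S) = if t ∈ S then (1 : ℝ) else 0 := by
    intro t
    by_cases h1 : t ∈ S
    · rw [ind_true h1, if_pos h1]
    · rw [ind_false h1, if_neg h1]
  simp [h]

theorem sum_ind' (a : Perm Ω) (S : Finset Ω) : ∑ t : Ω, ind (a t ∈ S) = (S.card : ℝ) := by
  rw [← sum_ind S]
  exact Equiv.sum_comp a fun t => ind (t ∈ S)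

/-- One more point. -/
theorem step_bound {G : Perm Ω → ℝ} {m N : ℕ} {C η φ : ℝ} (hG0 : ∀ y, 0 ≤ G y)
    (hG : ∀ (D : Finset Ω) (σ : Perm Ω), D.card ≤ m → av D (fun h => G (σ * h)) ≤ C)
    (hm : 2 * m + 4 ≤ Fintype.card Ω) (hη : 4 * (m : ℝ) + 2 ≤ η * Fintype.card Ω)
    (hφ : 0 ≤ φ) {l l' : List (Perm Ω)} (hl : l.length = N) (hl' : l'.length = N)
    (a a' : Perm Ω) (D : Finset Ω) (σ : Perm Ω) (hD : D.card + 2 * N ≤ m) :
    av D (fun h => G (σ * h) * kap (σ * h) a a' l l') ≤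
      ((2 * φ) ^ good φ (a :: l) (a' :: l') + (N + 1) * η) * C := by
  have hC := C_nonneg hG0 hG
  have hn : (0 : ℝ) < Fintype.card Ω := by
    have : 0 < Fintype.card Ω := by omega
    exact_mod_cast this
  have hη0 : 0 ≤ η := by
    by_contra h
    push Not at h
    have h1 : η * Fintype.card Ω < 0 := mul_neg_of_neg_of_pos h hn
    have h2 : (0 : ℝ) ≤ (m : ℝ) := Nat.cast_nonneg _
    linarith
  have hq0 : 0 ≤ (2 * φ) ^ good φ l l' := by positivity
  have hk : 0 ≤ (N : ℝ) * η * C := by positivity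
  have h1 : av D (fun h => G (σ * h) * kap (σ * h) a a' l l') =
      (∑ t : Ω, av D (fun h => G (σ * h) * ind (run (σ * h) (a t) l = run (σ * h) (a' t) l'))) /
        (Fintype.card Ω : ℝ) := by
    rw [← av_sum, div_eq_inv_mul, ← av_mul_left]
    refine av_congr fun g _ => ?_
    unfold kap
    rw [← mul_sum]
    ring
  have h2 : ∀ t : Ω, av D (fun h => G (σ * h) *
      ind (run (σ * h) (a t) l = run (σ * h) (a' t) l')) ≤
      N * η * C + (ind (a t ∈ D) + ind (a' t ∈ D) +
        (2 * φ) ^ good φ l l' * ind (t ∈ univ.filter fun x => (a⁻¹ * a') x = x)) * C := by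
    intro t
    have hle : av D (fun h => G (σ * h) * ind (run (σ * h) (a t) l = run (σ * h) (a' t) l')) ≤ C :=
      av_G_ind_le hG0 hG (by omega) σ _
    have i1 := ind_nonneg (a t ∈ D)
    have i2 := ind_nonneg (a' t ∈ D)
    have i3 := ind_nonneg (t ∈ univ.filter fun x => (a⁻¹ * a') x = x)
    have i4 := mul_nonneg hq0 i3
    have i5 := mul_nonneg i4 hC
    have i6 := mul_nonneg i1 hC
    have i7 := mul_nonneg i2 hC
    by_cases b1 : a t ∈ D
    · rw [ind_true b1]
      nlinarith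
    by_cases b2 : a' t ∈ D
    · rw [ind_true b2]
      nlinarith
    by_cases b3 : a t = a' t
    · have b4 : t ∈ univ.filter fun x => (a⁻¹ * a') x = x := by
        rw [mem_filter, Perm.mul_apply, Perm.inv_eq_iff_eq]
        exact ⟨mem_univ _, b3.symm⟩
      rw [ind_true b4, mul_one]
      have h6 := mrg_bound hG0 hG hm hη hφ N l l' hl hl' D σ (a t) hD b1
      rw [← b3]
      refine h6.trans ?_
      nlinarith
    · have h6 := div_bound hG0 hG hm hη N l l' hl hl' D σ _ _ hD b3 b1 b2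
      refine h6.trans ?_
      nlinarith
  have h3 : ∑ t : Ω, (N * η * C + (ind (a t ∈ D) + ind (a' t ∈ D) +
        (2 * φ) ^ good φ l l' * ind (t ∈ univ.filter fun x => (a⁻¹ * a') x = x)) * C) =
      Fintype.card Ω * (N * η * C) + (D.card + D.card + (2 * φ) ^ good φ l l' *
        ((univ.filter fun x => (a⁻¹ * a') x = x).card : ℝ)) * C := by
    rw [sum_add_distrib, sum_const, card_univ, nsmul_eq_mul, ← sum_mul, sum_add_distrib,
      sum_add_distrib, sum_ind', sum_ind', ← mul_sum, sum_ind]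
  have h4 : (2 * φ) ^ good φ l l' * ((univ.filter fun x => (a⁻¹ * a') x = x).card : ℝ) ≤
      (2 * φ) ^ good φ (a :: l) (a' :: l') * Fintype.card Ω := by
    show _ ≤ (2 * φ) ^ ((if (fixc (a⁻¹ * a') : ℝ) ≤ φ * Fintype.card Ω then 1 else 0) +
        good φ l l') * _
    by_cases hgd : (fixc (a⁻¹ * a') : ℝ) ≤ φ * Fintype.card Ω
    · rw [if_pos hgd, pow_add, pow_one, mul_comm (2 * φ), mul_assoc]
      refine mul_le_mul_of_nonneg_left ?_ hq0
      have h5 : ((univ.filter fun x => (a⁻¹ * a') x = x).card : ℝ) ≤ φ * Fintype.card Ω := hgd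
      nlinarith
    · rw [if_neg hgd, zero_add]
      refine mul_le_mul_of_nonneg_left ?_ hq0
      exact_mod_cast card_le_univ _
  have h5 : 2 * (D.card : ℝ) ≤ η * Fintype.card Ω := by
    have h6 : ((D.card + 2 * N : ℕ) : ℝ) ≤ (m : ℝ) := by exact_mod_cast hD
    push_cast at h6
    have h7 : (0 : ℝ) ≤ (N : ℝ) := Nat.cast_nonneg _
    have h8 : (0 : ℝ) ≤ (D.card : ℝ) := Nat.cast_nonneg _
    linarith
  rw [h1, div_le_iff₀ hn]
  refine (sum_le_sum fun t _ => h2 t).trans ?_
  rw [h3]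
  have h6 := mul_le_mul_of_nonneg_right h4 hC
  have h7 := mul_le_mul_of_nonneg_right h5 hC
  nlinarith

/-- Moments of the number of coincidences. -/
theorem moment_bound {m N : ℕ} {η φ : ℝ}
    (hm : 2 * m + 4 ≤ Fintype.card Ω) (hη : 4 * (m : ℝ) + 2 ≤ η * Fintype.card Ω)
    (hφ : 0 ≤ φ) {l l' : List (Perm Ω)} (hl : l.length = N) (hl' : l'.length = N)
    (a a' : Perm Ω) : ∀ (j : ℕ) (D : Finset Ω) (σ : Perm Ω), D.card + 2 * N * j ≤ m →
    av D (fun h => kap (σ * h) a a' l l' ^ j) ≤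
      ((2 * φ) ^ good φ (a :: l) (a' :: l') + (N + 1) * η) ^ j := by
  intro j
  induction j with
  | zero =>
    intro D σ _
    simp only [pow_zero]
    exact le_of_eq (av_const _ _)
  | succ j ih =>
    intro D σ hD
    have e1 : 2 * N * (j + 1) = 2 * N * j + 2 * N := by ring
    rw [e1] at hD
    have hcast : ((m - 2 * N * j : ℕ) : ℝ) ≤ (m : ℝ) := by exact_mod_cast Nat.sub_le _ _
    have h := step_bound (G := fun y => kap y a a' l l' ^ j) (m := m - 2 * N * j) (N := N)
      (C := ((2 * φ) ^ good φ (a :: l) (a' :: l') + (N + 1) * η) ^ j) (η := η) (φ := φ)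
      (fun y => pow_nonneg (kap_nonneg _ _ _ _ _) _) (fun D' σ' hD' => ih D' σ' (by omega))
      (by omega) (by linarith) hφ hl hl' a a' D σ (by omega)
    simp only [pow_succ]
    rw [mul_comm (_ ^ j)]
    exact h

/-- Markov's inequality. -/
theorem kap_markov {N M : ℕ} {η φ : ℝ}
    (hm : 4 * N * M + 4 ≤ Fintype.card Ω) (hη : 8 * (N * M : ℝ) + 2 ≤ η * Fintype.card Ω)
    (hφ : 0 < φ) {l l' : List (Perm Ω)} (hl : l.length = N) (hl' : l'.length = N)
    (a a' : Perm Ω) :
    av ∅ (fun y => ind (φ < kap y a a' l l')) ≤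
      (((2 * φ) ^ good φ (a :: l) (a' :: l') + (N + 1) * η) / φ) ^ M := by
  have h1 := moment_bound (m := 2 * N * M) (N := N) (η := η) (φ := φ) (by linarith)
    (by push_cast; linarith) hφ.le hl hl' a a' M ∅ 1 (by simp)
  simp only [one_mul] at h1
  have h2 : av ∅ (fun y => ind (φ < kap y a a' l l')) ≤
      av ∅ (fun y => (φ ^ M)⁻¹ * kap y a a' l l' ^ M) := by
    refine av_mono fun y _ => ?_
    by_cases h3 : φ < kap y a a' l l'
    · rw [ind_true h3, ← inv_pow, ← mul_pow]
      refine one_le_pow₀ ?_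
      rw [inv_mul_eq_div, one_le_div₀ hφ]
      exact h3.le
    · rw [ind_false h3]
      have := kap_nonneg y a a' l l'
      positivity
  refine h2.trans ?_
  rw [av_mul_left, div_pow, div_eq_inv_mul]
  exact mul_le_mul_of_nonneg_left h1 (by positivity)

end RCG
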